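import Pool.Agent.Helper27_QL.StmtApp12

set_option autoImplicit false
set_option linter.unusedVariables false
set_option linter.unusedSimpArgs false
open Matrix Polynomial MeasureTheory Set Filter Topology
namespace QL.H25

theorem u3_add (s t : ℝ) : u3 s * u3 t = u3 (s + t) := by
  ext i j
  fin_cases i <;> fin_cases j <;>
    simp [u3, Matrix.mul_apply, Fin.sum_univ_three] <;> ring

theorem u3_zero : u3 0 = 1 := by
  ext i j
  fin_cases i <;> fin_cases j <;> simp [u3, Matrix.one_apply]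

theorem u3_det (t : ℝ) : (u3 t).det = 1 := by
  simp [u3, Matrix.det_fin_three]

theorem v3_det (t : ℝ) : (v3 t).det = 1 := by
  simp [v3, Matrix.det_fin_three]

theorem v3_add (s t : ℝ) : v3 s * v3 t = v3 (s + t) := by
  ext i j
  fin_cases i <;> fin_cases j <;>
    simp [v3, Matrix.mul_apply, Fin.sum_univ_three]

theorem v3_zero : v3 0 = 1 := by
  ext i j
  fin_cases i <;> fin_cases j <;> simp [v3, Matrix.one_apply]

theorem a3_det (l : ℝ) (hl : l ≠ 0) : (a3 l).det = 1 := by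
  simp [a3, Matrix.det_fin_three, hl]

theorem a3_mul (l l' : ℝ) (hl : l ≠ 0) (hl' : l' ≠ 0) : a3 l * a3 l' = a3 (l * l') := by
  ext i j
  fin_cases i <;> fin_cases j <;>
    simp [a3, Matrix.mul_apply, Fin.sum_univ_three, mul_comm]

theorem a3_one : a3 1 = 1 := by
  ext i j
  fin_cases i <;> fin_cases j <;> simp [a3, Matrix.one_apply]

theorem form3_det (θ α : ℝ) : (form3 θ α).det = θ^3 := by
  simp [form3, Matrix.det_fin_three]; ring

theorem v3_B3 (α : ℝ) : (v3 α)ᵀ * B3 * v3 α = form3 1 (2*α) := by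
  ext i j
  fin_cases i <;> fin_cases j <;>
    simp [v3, B3, form3, Matrix.mul_apply, Fin.sum_univ_three] <;> ring

theorem v3_form3 (θ α β : ℝ) : (v3 β)ᵀ * form3 θ α * v3 β = form3 θ (α + 2*θ*β) := by
  ext i j
  fin_cases i <;> fin_cases j <;>
    simp [v3, form3, Matrix.mul_apply, Fin.sum_univ_three] <;> ring

theorem a3_form3 (θ α l : ℝ) (hl : l ≠ 0) :
    (a3 l)ᵀ * form3 θ α * a3 l = form3 θ (α * (l⁻¹)^2) := by
  ext i j
  fin_cases i <;> fin_cases j <;>
    simp [a3, form3, Matrix.mul_apply, Fin.sum_univ_three] <;> field_simp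

theorem u3_form3 (θ α t : ℝ) : (u3 t)ᵀ * form3 θ α * u3 t = form3 θ α := by
  ext i j
  fin_cases i <;> fin_cases j <;>
    simp [u3, form3, Matrix.mul_apply, Fin.sum_univ_three] <;> ring

theorem form3_B3 : form3 1 0 = B3 := by
  ext i j
  fin_cases i <;> fin_cases j <;> simp [B3, form3]

theorem u3_B3 (t : ℝ) : (u3 t)ᵀ * B3 * u3 t = B3 := by
  rw [← form3_B3, u3_form3]

theorem a3_B3 (l : ℝ) (hl : l ≠ 0) : (a3 l)ᵀ * B3 * a3 l = B3 := by
  rw [← form3_B3, a3_form3 _ _ _ hl]; simp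

theorem u3T_B3 (r : ℝ) : u3 r * B3 * (u3 r)ᵀ = B3 := by
  ext i j
  fin_cases i <;> fin_cases j <;>
    simp [u3, B3, Matrix.mul_apply, Fin.sum_univ_three, Matrix.transpose_apply] <;> ring

theorem v3_u3 (α t : ℝ) : v3 α * u3 t = u3 t * v3 α := by
  ext i j
  fin_cases i <;> fin_cases j <;>
    simp [v3, u3, Matrix.mul_apply, Fin.sum_univ_three] <;> ring

theorem a3_v3 (l α : ℝ) (hl : l ≠ 0) : a3 l * v3 α = v3 (l^2 * α) * a3 l := by
  ext i j
  fin_cases i <;> fin_cases j <;>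
    simp [v3, a3, Matrix.mul_apply, Fin.sum_univ_three] <;> field_simp

theorem a3_u3 (l t : ℝ) (hl : l ≠ 0) : a3 l * u3 t = u3 (l * t) * a3 l := by
  ext i j
  fin_cases i <;> fin_cases j <;>
    simp [u3, a3, Matrix.mul_apply, Fin.sum_univ_three] <;> field_simp

theorem fixed_form3 (M : Matrix (Fin 3) (Fin 3) ℝ) (hM : Mᵀ = M)
    (h : ∀ t, (u3 t)ᵀ * M * u3 t = M) : ∃ θ α, M = form3 θ α := by
  have hs : ∀ i j, M i j = M j i := fun i j => by
    conv_lhs => rw [← hM]
    rfl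
  have h1 := fun i j => congrFun (congrFun (h 1) i) j
  have e12 := h1 1 2
  have e11 := h1 1 1
  have e01 := h1 0 1
  have e00 := h1 0 0
  simp [u3, Matrix.mul_apply, Fin.sum_univ_three] at e12 e11 e01 e00
  have s01 := hs 0 1
  have s02 := hs 0 2
  have s12 := hs 1 2
  have f1 : M 2 2 = 0 := by linarith
  have f2 : M 1 2 = 0 := by linarith
  have f3 : M 1 1 = - M 0 2 := by linarith
  have f4 : M 0 1 = 0 := by linarith
  refine ⟨M 0 2, M 0 0, ?_⟩
  ext i j
  fin_cases i <;> fin_cases j <;> simp [form3] <;> linarith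

theorem fixed3 : fixed3Statement :=
  ⟨fixed_form3, form3_det, v3_B3, fun θ α t => u3_form3 θ α t, u3_B3, a3_B3, v3_u3, v3_add,
    a3_v3, u3_add, u3_det, v3_det, a3_det⟩

theorem U3_exists : U3_existsStatement := by
  refine ⟨⟨!![1,0,0; MvPolynomial.X 0,1,0; MvPolynomial.C (1/2) * MvPolynomial.X 0 ^ 2,
    MvPolynomial.X 0,1], fun w => u3 (w 0), ?_, fun w => u3_det _, fun w w' => ?_⟩, fun w => rfl⟩
  · intro w i j
    fin_cases i <;> fin_cases j <;> simp [u3] <;> ring
  · rw [u3_add]; rfl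

theorem final3 : final3Statement := by
  intro S z hz h a
  have : ∃ j, z 0 j ≠ 0 := by
    by_contra hc
    push Not at hc
    have : z.det = 0 := Matrix.det_eq_zero_of_row_eq_zero 0 hc
    rw [hz] at this
    exact one_ne_zero this
  obtain ⟨j, hj⟩ := this
  have hp : (Pi.single j 1 : Fin 3 → ℝ) ∈ Prm (Fin 3) := by
    refine ⟨Pi.single j 1, ?_, fun i => ?_⟩
    · have h1 : (Finset.univ.gcd (Pi.single j 1 : Fin 3 → ℤ)) ∣ 1 := by
        have := Finset.gcd_dvd (f := (Pi.single j 1 : Fin 3 → ℤ)) (Finset.mem_univ j)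
        simpa using this
      exact Int.eq_one_of_dvd_one (Int.nonneg_of_normalize_eq_self Finset.normalize_gcd) h1
    · by_cases hij : i = j
      · subst hij; simp
      · simp [hij]
  set y := z *ᵥ (Pi.single j 1 : Fin 3 → ℝ) with hy
  have hy0 : y 0 = z 0 j := by simp [hy]
  have key : ∀ ρ, (y ⬝ᵥ B3 *ᵥ y + ρ * (y 0)^2, (0:ℝ)) ∈ S := by
    intro ρ
    have := h ρ _ hp
    simp only [val] at this
    rw [← hy] at this
    have e : y ⬝ᵥ form3 1 ρ *ᵥ y = y ⬝ᵥ B3 *ᵥ y + ρ * (y 0)^2 := by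
      simp [form3, B3, Matrix.mulVec, dotProduct, Fin.sum_univ_three]; ring
    rw [e] at this
    simpa using this
  have := key ((a - y ⬝ᵥ B3 *ᵥ y) / (y 0)^2)
  rw [div_mul_cancel₀] at this
  · simpa using this
  · rw [hy0]; exact pow_ne_zero 2 hj

end QL.H25
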