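import Pool.Agent.Helper25_QL.Curve3

set_option autoImplicit false
set_option linter.unusedVariables false
open Matrix Polynomial MeasureTheory Set Filter Topology
namespace QL.H25

theorem app1 (hTL : TL3_factsStatement) (hc : curve3Statement) (hl : limit3Statement) :
    app1Statement := by
  intro g hg hirr
  obtain ⟨r, hr⟩ := (conj3 hTL).2 g hg hirr
  set E : Set ℝ := {t : ℝ | ∃ v ∈ Prm (Fin 3), t = (g *ᵥ v) ⬝ᵥ B3 *ᵥ (g *ᵥ v)} with hE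
  let S : Set (ℝ × ℝ) := {y | y.1 ∈ closure E ∧ y.2 = 0}
  have hS : IsClosed S :=
    (isClosed_closure.preimage continuous_fst).inter (isClosed_eq continuous_snd continuous_const)
  have hD : ((u3 r)ᵀ * g, p3) ∈ DD S := by
    intro v hv
    refine ⟨subset_closure ⟨v, hv, ?_⟩, ?_⟩
    · show (((u3 r)ᵀ * g) *ᵥ v) ⬝ᵥ B3 *ᵥ (((u3 r)ᵀ * g) *ᵥ v) = _
      have e1 : ((u3 r)ᵀ * g) *ᵥ v = (u3 r)ᵀ *ᵥ (g *ᵥ v) := by rw [Matrix.mulVec_mulVec]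
      have e2 : ∀ y : Fin 3 → ℝ, ((u3 r)ᵀ *ᵥ y) ⬝ᵥ B3 *ᵥ ((u3 r)ᵀ *ᵥ y) = y ⬝ᵥ B3 *ᵥ y := by
        intro y
        rw [Matrix.mulVec_transpose, ← Matrix.dotProduct_mulVec, ← Matrix.mulVec_transpose,
          Matrix.mulVec_mulVec, Matrix.mulVec_mulVec, u3T_B3]
      rw [e1, e2]
    · show (0 : Fin 3 → ℝ) ⬝ᵥ (((u3 r)ᵀ * g) *ᵥ v) = 0
      simp
  obtain ⟨U, Y, x, α, hU, hY, hxY, hC⟩ := hc S hS _ hr hD
  obtain ⟨z, hz, hz'⟩ := hl S hS U hU Y hY x hxY.1 α hC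
  have h := final3 S z hz hz'
  exact dense_iff_closure_eq.2 (Set.eq_univ_of_forall fun a => (h a).1)

end QL.H25
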