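import Pool.Agent.Helper25_QL.Struct3

set_option autoImplicit false
set_option linter.unusedVariables false
set_option linter.unusedSimpArgs false
open Matrix Polynomial MeasureTheory Set Filter Topology
namespace QL.H25

theorem gam_trace {ι : Type} [Fintype ι] [DecidableEq ι] {γ : Matrix ι ι ℝ} (h : γ ∈ Gam ι) :
    ∃ m : ℤ, γ.trace = m := by
  choose f hf using h.2
  refine ⟨∑ i, f i i, ?_⟩
  simp [Matrix.trace, hf]

theorem gam_im {ι : Type} [Fintype ι] [DecidableEq ι] {γ : Matrix ι ι ℝ} (h : γ ∈ Gam ι) :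
    ∃ A : Matrix ι ι ℤ, im A = γ := by
  choose f hf using h.2
  exact ⟨f, by ext i j; simp [im, hf]⟩

theorem tri_trace (t l r α : ℝ) (hl : l ≠ 0) :
    (u3 (-t) * (a3 l * u3 r) * v3 α).trace = l⁻¹ + 1 + l := by
  simp [u3, a3, v3, Matrix.trace, Matrix.mul_apply, Fin.sum_univ_three]

theorem sq_nil (s α : ℝ) : (u3 s * v3 α - 1) * (u3 s * v3 α - 1) =
    !![0,0,0; 0,0,0; s^2,0,0] := by
  ext i j
  fin_cases i <;> fin_cases j <;>
    simp [u3, v3, Matrix.mul_apply, Fin.sum_univ_three, Matrix.one_apply] <;> ring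

theorem beta1_3 (htri : so3_triStatement) : beta1_3Statement := by
  intro x hx hT t ht γ hγ h α hh hα hB hd heq
  by_contra hcon
  rw [Filter.not_eventually] at hcon
  have hxu : IsUnit x.det := by rw [hx]; exact isUnit_one
  have c00 : Tendsto (fun i => h i 0 0) atTop (𝓝 1) := by
    have := (tendsto_pi_nhds.1 ((tendsto_pi_nhds.1 hh) 0)) 0
    simpa using this
  have c10 : Tendsto (fun i => h i 1 0) atTop (𝓝 0) := by
    have := (tendsto_pi_nhds.1 ((tendsto_pi_nhds.1 hh) 1)) 0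
    simpa using this
  have cl : Tendsto (fun i => (h i 0 0)⁻¹⁻¹ + 1 + (h i 0 0)⁻¹) atTop (𝓝 3) := by
    have h1 : Tendsto (fun i => (h i 0 0)⁻¹) atTop (𝓝 1) := by
      simpa using c00.inv₀ one_ne_zero
    have h2 : Tendsto (fun i => (h i 0 0)⁻¹⁻¹) atTop (𝓝 1) := by simpa using c00
    have := (h2.add_const 1).add h1
    norm_num at this ⊢
    exact this
  have e1 : ∀ᶠ i in atTop, |(h i 0 0)⁻¹⁻¹ + 1 + (h i 0 0)⁻¹ - 3| < 1 := by
    have := (cl.sub_const 3).abs
    simp only [sub_self, abs_zero] at this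
    exact this.eventually (gt_mem_nhds one_pos)
  have e2 : ∀ᶠ i in atTop, 0 < h i 0 0 := c00.eventually (lt_mem_nhds one_pos)
  have e3 : ∀ᶠ i in atTop, h i 1 0 < 1 := c10.eventually (gt_mem_nhds one_pos)
  have e4 : ∀ᶠ i in atTop, 1 < t i := ht.eventually_gt_atTop 1
  obtain ⟨i, hi0, hi1, hi2, hi3, hi4⟩ :=
    (hcon.and_eventually (e1.and (e2.and (e3.and e4)))).exists
  rw [not_not] at hi0
  obtain ⟨r, hr⟩ := htri (h i) (hB i) (hd i) hi0 hi2
  set l := (h i 0 0)⁻¹ with hl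
  have hl0 : 0 < l := inv_pos.2 hi2
  have hut : u3 (-(t i)) * u3 (t i) = 1 := by rw [u3_add]; simp [u3_zero]
  have hγe : x * γ i = u3 (-(t i)) * (h i * v3 (α i) * x) := by
    rw [← heq i, Matrix.mul_assoc (u3 (t i)), ← Matrix.mul_assoc (u3 (-(t i))), hut, Matrix.one_mul]
  have hγe' : γ i = x⁻¹ * (u3 (-(t i)) * h i * v3 (α i)) * x := by
    have : γ i = x⁻¹ * (x * γ i) := by
      rw [← Matrix.mul_assoc, Matrix.nonsing_inv_mul _ hxu, Matrix.one_mul]
    rw [this, hγe]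
    simp only [Matrix.mul_assoc]
  have htr : (γ i).trace = l⁻¹ + 1 + l := by
    rw [hγe', Matrix.trace_mul_cycle, Matrix.mul_nonsing_inv _ hxu, Matrix.one_mul, hr]
    exact tri_trace _ _ _ _ hl0.ne'
  obtain ⟨m, hm⟩ := gam_trace (hγ i)
  have hm3 : m = 3 := by
    have : |(m : ℝ) - 3| < 1 := by rw [← hm, htr]; exact hi1
    have h2 : |m - 3| < 1 := by exact_mod_cast this
    have := Int.abs_lt_one_iff.1 h2
    linarith
  have hl1 : l = 1 := by
    have h2 : l⁻¹ + 1 + l = 3 := by rw [← htr, hm, hm3]; norm_num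
    have h3 : (l - 1)^2 = 0 := by
      have h4 : l * (l⁻¹ + 1 + l) = l * 3 := by rw [h2]
      rw [mul_add, mul_add, mul_inv_cancel₀ hl0.ne'] at h4
      nlinarith
    have := pow_eq_zero_iff (two_ne_zero) |>.1 h3
    linarith
  rw [hl1, a3_one, Matrix.one_mul] at hr
  have hr0 : r = h i 1 0 := by rw [hr]; simp [u3]
  set s := -(t i) + r with hs
  have hs0 : s ≠ 0 := by
    have : s < 0 := by rw [hs, hr0]; linarith
    exact this.ne
  have hγ2 : γ i = x⁻¹ * (u3 s * v3 (α i)) * x := by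
    rw [hγe', hr, u3_add]
  have hsq : (γ i - 1) * (γ i - 1) = x⁻¹ * !![0,0,0; 0,0,0; s^2,0,0] * x := by
    rw [← sq_nil s (α i)]
    have h1 : γ i - 1 = x⁻¹ * (u3 s * v3 (α i) - 1) * x := by
      rw [Matrix.mul_sub, Matrix.sub_mul, ← hγ2, Matrix.mul_one, Matrix.nonsing_inv_mul _ hxu]
    rw [h1]
    have h2 : ∀ A B : Matrix (Fin 3) (Fin 3) ℝ, (x⁻¹ * A * x) * (x⁻¹ * B * x) = x⁻¹ * (A * B) * x := by
      intro A B
      have : x * x⁻¹ = 1 := Matrix.mul_nonsing_inv _ hxu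
      calc (x⁻¹ * A * x) * (x⁻¹ * B * x) = x⁻¹ * A * (x * x⁻¹) * B * x := by
            simp only [Matrix.mul_assoc]
        _ = _ := by rw [this, Matrix.mul_one]; simp only [Matrix.mul_assoc]
    exact h2 _ _
  obtain ⟨A, hA⟩ := gam_im (hγ i)
  have hent : ∀ a b, ((γ i - 1) * (γ i - 1)) a b = s^2 * x⁻¹ a 2 * x 0 b := by
    intro a b
    rw [hsq]
    simp only [Matrix.mul_apply, Fin.sum_univ_three]
    simp
    left
    ring
  have hex : ∃ a, x⁻¹ a 2 ≠ 0 := by
    by_contra hc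
    push Not at hc
    have h1 : (x⁻¹).det = 0 := Matrix.det_eq_zero_of_column_eq_zero 2 hc
    have h2 : (x * x⁻¹).det = 1 := by rw [Matrix.mul_nonsing_inv _ hxu, Matrix.det_one]
    rw [Matrix.det_mul, h1, mul_zero] at h2
    exact zero_ne_one h2
  obtain ⟨a, ha⟩ := hex
  have hex' : ∃ b, x 0 b ≠ 0 := by
    by_contra hc
    push Not at hc
    have h1 : x.det = 0 := Matrix.det_eq_zero_of_row_eq_zero 0 hc
    rw [hx] at h1
    exact one_ne_zero h1
  obtain ⟨b, hb⟩ := hex'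
  have hcast : ∀ a b, ((((A - 1) * (A - 1)) a b : ℤ) : ℝ) = ((γ i - 1) * (γ i - 1)) a b := by
    intro a b
    have h1 : im ((A - 1) * (A - 1)) = (γ i - 1) * (γ i - 1) := by
      rw [← hA]
      ext p q
      simp only [im, Matrix.mul_apply, Matrix.sub_apply, Matrix.one_apply]
      push_cast
      rfl
    rw [← h1]; rfl
  refine hT (fun b => ((A - 1) * (A - 1)) a b) ?_ ⟨s^2 * x⁻¹ a 2, ?_⟩
  · intro h0
    have h1 := congrFun h0 b
    have h2 := hcast a b
    simp only [Pi.zero_apply] at h1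
    rw [h1, hent] at h2
    simp at h2
    rcases h2 with (h2 | h2) | h2
    · exact hs0 h2
    · exact ha h2
    · exact hb h2
  · ext b
    have h2 := hcast a b
    rw [hent] at h2
    simp only [iv]
    rw [h2]
    simp [c3, Matrix.vecMul, dotProduct, Fin.sum_univ_three]

end QL.H25
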