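import Pool.Agent.Helper25_QL.Beta1

set_option autoImplicit false
set_option linter.unusedVariables false
set_option linter.unusedSimpArgs false
open Matrix Polynomial MeasureTheory Set Filter Topology
namespace QL.H25

/-- common denominators -/
theorem exists_int_multiple {ι κ : Type} [Fintype ι] [Fintype κ] (R0 : Matrix ι κ ℚ) :
    ∃ (N : ℤ) (R : Matrix ι κ ℤ), N ≠ 0 ∧ ∀ i j, (R i j : ℚ) = N * R0 i j := by
  classical
  let N : ℤ := ∏ i, ∏ j, ((R0 i j).den : ℤ)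
  have hN : N ≠ 0 := Finset.prod_ne_zero_iff.2 fun i _ => Finset.prod_ne_zero_iff.2 fun j _ => by
    exact_mod_cast (R0 i j).den_nz
  have hdvd : ∀ i j, ((R0 i j).den : ℤ) ∣ N := fun i j =>
    (Finset.dvd_prod_of_mem (fun j => ((R0 i j).den : ℤ)) (Finset.mem_univ j)).trans
      (Finset.dvd_prod_of_mem (fun i => ∏ j, ((R0 i j).den : ℤ)) (Finset.mem_univ i))
  choose q hq using hdvd
  refine ⟨N, fun i j => (R0 i j).num * q i j, hN, fun i j => ?_⟩
  rw [hq i j]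
  push_cast
  have h1 : ((R0 i j).den : ℚ) * R0 i j = (R0 i j).num := Rat.den_mul_eq_num _
  rw [← h1]
  ring

/-- a rational linear functional -/
theorem exists_ratfun : ∃ f : ℝ →ₗ[ℚ] ℚ, f 1 = 1 := by
  obtain ⟨g, hg⟩ := LinearMap.exists_leftInverse_of_injective (Algebra.linearMap ℚ ℝ)
    (LinearMap.ker_eq_bot.2 (algebraMap ℚ ℝ).injective)
  refine ⟨g, ?_⟩
  have := LinearMap.congr_fun hg 1
  simpa using this

/-- if the solutions of a system of integer congruences of symmetric forms are the multiples of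
`M0`, then `M0` is proportional to an integer matrix -/
theorem rational_of_unique {ι κ : Type} [Fintype ι] [DecidableEq ι] (A : κ → Matrix ι ι ℤ)
    (M0 : Matrix ι ι ℝ) (h0 : M0 ≠ 0) (hs : M0ᵀ = M0)
    (hM : ∀ i, (im (A i))ᵀ * M0 * im (A i) = M0)
    (huniq : ∀ M : Matrix ι ι ℝ, Mᵀ = M → (∀ i, (im (A i))ᵀ * M * im (A i) = M) →
      ∃ c : ℝ, M = c • M0) : ∃ R : Matrix ι ι ℤ, R ≠ 0 ∧ ∃ c : ℝ, im R = c • M0 := by
  obtain ⟨f, hf⟩ := exists_ratfun
  have : ∃ a b, M0 a b ≠ 0 := by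
    by_contra hc
    push Not at hc
    exact h0 (by ext a b; exact hc a b)
  obtain ⟨a, b, hab⟩ := this
  set M1 : Matrix ι ι ℝ := (M0 a b)⁻¹ • M0 with hM1
  have hM1A : ∀ i, (im (A i))ᵀ * M1 * im (A i) = M1 := fun i => by
    rw [hM1, Matrix.mul_smul, Matrix.smul_mul, hM]
  let R0 : Matrix ι ι ℚ := fun i j => f (M1 i j)
  let Rr : Matrix ι ι ℝ := fun i j => (R0 i j : ℝ)
  have hR0 : R0 a b = 1 := by
    show f (M1 a b) = 1
    have : M1 a b = 1 := by simp [hM1, hab]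
    rw [this, hf]
  have hRs : Rrᵀ = Rr := by
    ext i j
    show ((R0 j i : ℚ) : ℝ) = (R0 i j : ℚ)
    have : M1 j i = M1 i j := by
      have h1 : M0 j i = M0 i j := congrFun (congrFun hs i) j
      simp [hM1, h1]
    show ((f (M1 j i) : ℚ) : ℝ) = (f (M1 i j) : ℚ)
    rw [this]
  have hRA : ∀ i, (im (A i))ᵀ * Rr * im (A i) = Rr := fun i => by
    ext p q
    have h1 := congrFun (congrFun (hM1A i) p) q
    simp only [Matrix.mul_apply, Matrix.transpose_apply, im] at h1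
    have h2 := congrArg f h1
    have h3 : ∑ k, (∑ l, (A i l p : ℚ) * R0 l k) * (A i k q : ℚ) = R0 p q := by
      show _ = f (M1 p q)
      rw [← h2, map_sum]
      refine Finset.sum_congr rfl fun k _ => ?_
      have e1 : (∑ l, ((A i l p : ℤ) : ℝ) * M1 l k) * ((A i k q : ℤ) : ℝ) =
          ((A i k q : ℤ) : ℚ) • ∑ l, ((A i l p : ℤ) : ℚ) • M1 l k := by
        simp only [Rat.smul_def]
        push_cast
        ring
      rw [e1, map_smul, map_sum, smul_eq_mul, mul_comm]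
      congr 1
      refine Finset.sum_congr rfl fun l _ => ?_
      rw [map_smul, smul_eq_mul]
    simp only [Matrix.mul_apply, Matrix.transpose_apply, im]
    show ∑ k, (∑ l, ((A i l p : ℤ) : ℝ) * (R0 l k : ℚ)) * ((A i k q : ℤ) : ℝ) = (R0 p q : ℚ)
    rw [← h3]
    push_cast
    rfl
  obtain ⟨c, hc⟩ := huniq Rr hRs hRA
  obtain ⟨N, R, hN, hR⟩ := exists_int_multiple R0
  refine ⟨R, ?_, N * c, ?_⟩
  · intro h
    have h1 := hR a b
    rw [h, hR0] at h1
    simp at h1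
    exact hN (by exact_mod_cast h1.symm)
  · ext i j
    have h1 : ((R i j : ℤ) : ℝ) = N * (R0 i j : ℚ) := by exact_mod_cast congrArg (Rat.cast (K := ℝ)) (hR i j)
    have h2 : ((R0 i j : ℚ) : ℝ) = c * M0 i j := by
      have := congrFun (congrFun hc i) j
      simpa using this
    simp only [im, Matrix.smul_apply, smul_eq_mul]
    rw [h1, h2]
    ring

theorem zero_of_mul {k : ℝ} {s : ℕ → ℝ} (hs : Tendsto s atTop atBot) {a : ℝ}
    (h : Tendsto (fun i => a + k * s i) atTop (𝓝 a)) : k = 0 := by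
  by_contra hk
  have h1 : Tendsto (fun i => k * s i) atTop (𝓝 0) := by
    have := h.sub_const a
    simpa using this
  have h2 : Tendsto (fun i => k⁻¹ * (k * s i)) atTop (𝓝 (k⁻¹ * 0)) := h1.const_mul _
  have h3 : Tendsto s atTop (𝓝 0) := by
    refine (h2.congr fun i => ?_).trans (by simp)
    rw [← mul_assoc, inv_mul_cancel₀ hk, one_mul]
  exact not_tendsto_nhds_of_tendsto_atBot hs 0 h3

/-- a form which is recurrent along `u3 s`, `s → -∞`, is `u3`-fixed -/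
theorem fixed_of_lim (M : Matrix (Fin 3) (Fin 3) ℝ) (hM : Mᵀ = M) (s : ℕ → ℝ)
    (hs : Tendsto s atTop atBot)
    (hl : Tendsto (fun i => (u3 (s i))ᵀ * M * u3 (s i)) atTop (𝓝 M)) :
    ∃ θ α, M = form3 θ α := by
  have hsy : ∀ i j, M i j = M j i := fun i j => by
    conv_lhs => rw [← hM]
    rfl
  have hl' : ∀ p q, Tendsto (fun i => ((u3 (s i))ᵀ * M * u3 (s i)) p q) atTop (𝓝 (M p q)) :=
    fun p q => (tendsto_pi_nhds.1 ((tendsto_pi_nhds.1 hl) p)) q
  have s01 := hsy 0 1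
  have s02 := hsy 0 2
  have s12 := hsy 1 2
  have f1 : M 2 2 = 0 := by
    refine zero_of_mul (a := M 1 2) hs ((hl' 1 2).congr fun i => ?_)
    simp [u3, Matrix.mul_apply, Fin.sum_univ_three]; ring
  have f2 : 2 * M 1 2 = 0 := by
    refine zero_of_mul (a := M 1 1) hs ((hl' 1 1).congr fun i => ?_)
    simp [u3, Matrix.mul_apply, Fin.sum_univ_three, f1, s12]; ring
  have f2' : M 1 2 = 0 := by linarith
  have f2'' : M 2 1 = 0 := by linarith
  have f3 : M 0 2 + M 1 1 = 0 := by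
    refine zero_of_mul (a := M 0 1) hs ((hl' 0 1).congr fun i => ?_)
    simp [u3, Matrix.mul_apply, Fin.sum_univ_three, f1, f2', f2'']; ring
  have f4 : 2 * M 0 1 = 0 := by
    refine zero_of_mul (a := M 0 0) hs ((hl' 0 0).congr fun i => ?_)
    have f3' : M 1 1 = - M 0 2 := by linarith
    simp [u3, Matrix.mul_apply, Fin.sum_univ_three, f1, f2', f2'', f3', s01, s02]; ring
  refine ⟨M 0 2, M 0 0, ?_⟩
  ext i j
  fin_cases i <;> fin_cases j <;> simp [form3] <;> linarith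

theorem form3_eq (θ α : ℝ) : form3 θ α = θ • B3 + α • !![1,0,0; 0,0,0; 0,0,0] := by
  ext i j
  fin_cases i <;> fin_cases j <;> simp [form3, B3]

theorem beta4_3 : beta4_3Statement := by
  intro x hx hT t ht γ hγ h hh hB hd hne heq
  have hxu : IsUnit x.det := by rw [hx]; exact isUnit_one
  have hxi : x * x⁻¹ = 1 := Matrix.mul_nonsing_inv _ hxu
  have hix : x⁻¹ * x = 1 := Matrix.nonsing_inv_mul _ hxu
  set δ : ℕ → Matrix (Fin 3) (Fin 3) ℝ := fun i => u3 (-(t i)) * h i with hδ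
  have hut : ∀ i, u3 (-(t i)) * u3 (t i) = 1 := fun i => by rw [u3_add]; simp [u3_zero]
  have hxγ : ∀ i, x * γ i = δ i * x := fun i => by
    have := heq i
    calc x * γ i = (u3 (-(t i)) * u3 (t i)) * (x * γ i) := by rw [hut, Matrix.one_mul]
      _ = u3 (-(t i)) * (u3 (t i) * x * γ i) := by simp only [Matrix.mul_assoc]
      _ = _ := by rw [this, hδ]; simp only [Matrix.mul_assoc]
  have hδB : ∀ i, (δ i)ᵀ * B3 * δ i = B3 := fun i => by
    calc (δ i)ᵀ * B3 * δ i = (h i)ᵀ * ((u3 (-(t i)))ᵀ * B3 * u3 (-(t i))) * h i := by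
          simp only [hδ, Matrix.transpose_mul, Matrix.mul_assoc]
      _ = _ := by rw [u3_B3, hB]
  set M0 := xᵀ * B3 * x with hM0
  have hM0det : M0.det = 1 := by simp [hM0, hx, B3_det]
  have hM0ne : M0 ≠ 0 := by
    intro h0
    rw [h0] at hM0det
    simp at hM0det
  have hM0s : M0ᵀ = M0 := by
    simp [hM0, Matrix.transpose_mul, B3_symm, Matrix.mul_assoc]
  choose A hA using fun i => gam_im (hγ i)
  have hconj : ∀ (M : Matrix (Fin 3) (Fin 3) ℝ) i,
      (im (A i))ᵀ * (xᵀ * M * x) * im (A i) = xᵀ * ((δ i)ᵀ * M * δ i) * x := fun M i => by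
    rw [hA]
    calc (γ i)ᵀ * (xᵀ * M * x) * γ i = (x * γ i)ᵀ * M * (x * γ i) := by
          simp only [Matrix.transpose_mul, Matrix.mul_assoc]
      _ = _ := by rw [hxγ]; simp only [Matrix.transpose_mul, Matrix.mul_assoc]
  suffices huniq : ∀ M : Matrix (Fin 3) (Fin 3) ℝ, Mᵀ = M →
      (∀ i, (im (A i))ᵀ * M * im (A i) = M) → ∃ c : ℝ, M = c • M0 by
    obtain ⟨R, hR, c, hc⟩ := rational_of_unique A M0 hM0ne hM0s
      (fun i => by rw [hM0, hconj, hδB]) huniq
    exact hT R hR ⟨c, hc⟩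
  intro M hMs hMA
  set P := (x⁻¹)ᵀ * M * x⁻¹ with hP
  have hMP : M = xᵀ * P * x := by
    have h1 : xᵀ * (x⁻¹)ᵀ = 1 := by rw [← Matrix.transpose_mul, hix, Matrix.transpose_one]
    calc M = (xᵀ * (x⁻¹)ᵀ) * M * (x⁻¹ * x) := by rw [h1, hix, Matrix.one_mul, Matrix.mul_one]
      _ = _ := by simp only [hP, Matrix.mul_assoc]
  have hPs : Pᵀ = P := by simp [hP, Matrix.transpose_mul, hMs, Matrix.mul_assoc]
  have hPδ : ∀ i, (δ i)ᵀ * P * δ i = P := fun i => by
    have h1 := hMA i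
    rw [hMP, hconj] at h1
    have h2 : (x⁻¹)ᵀ * (xᵀ * ((δ i)ᵀ * P * δ i) * x) * x⁻¹ = (x⁻¹)ᵀ * (xᵀ * P * x) * x⁻¹ := by
      rw [h1]
    have h3 : ∀ B : Matrix (Fin 3) (Fin 3) ℝ, (x⁻¹)ᵀ * (xᵀ * B * x) * x⁻¹ = B := fun B => by
      have h4 : (x⁻¹)ᵀ * xᵀ = 1 := by rw [← Matrix.transpose_mul, hxi, Matrix.transpose_one]
      calc (x⁻¹)ᵀ * (xᵀ * B * x) * x⁻¹ = ((x⁻¹)ᵀ * xᵀ) * B * (x * x⁻¹) := by
            simp only [Matrix.mul_assoc]
        _ = B := by rw [h4, hxi, Matrix.one_mul, Matrix.mul_one]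
    rw [h3, h3] at h2
    exact h2
  have hhu : ∀ i, IsUnit (h i).det := fun i => by rw [hd]; exact isUnit_one
  have hF : ∀ i, (u3 (-(t i)))ᵀ * P * u3 (-(t i)) = ((h i)⁻¹)ᵀ * P * (h i)⁻¹ := fun i => by
    have h1 := hPδ i
    have h4 : ((h i)⁻¹)ᵀ * (h i)ᵀ = 1 := by
      rw [← Matrix.transpose_mul, Matrix.mul_nonsing_inv _ (hhu i), Matrix.transpose_one]
    calc (u3 (-(t i)))ᵀ * P * u3 (-(t i)) =
        (((h i)⁻¹)ᵀ * (h i)ᵀ) * ((u3 (-(t i)))ᵀ * P * u3 (-(t i))) * (h i * (h i)⁻¹) := by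
          rw [h4, Matrix.mul_nonsing_inv _ (hhu i), Matrix.one_mul, Matrix.mul_one]
      _ = ((h i)⁻¹)ᵀ * ((δ i)ᵀ * P * δ i) * (h i)⁻¹ := by
          simp only [hδ, Matrix.transpose_mul, Matrix.mul_assoc]
      _ = _ := by rw [h1]
  have hadj : ∀ i, (h i)⁻¹ = (h i).adjugate := fun i => by
    rw [Matrix.inv_def, hd, Ring.inverse_one, one_smul]
  have hinv : Tendsto (fun i => (h i)⁻¹) atTop (𝓝 1) := by
    have h1 : Tendsto (fun i => (h i).adjugate) atTop (𝓝 (1 : Matrix (Fin 3) (Fin 3) ℝ).adjugate) :=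
      ((continuous_id.matrix_adjugate).tendsto _).comp hh
    rw [Matrix.adjugate_one] at h1
    exact h1.congr fun i => (hadj i).symm
  have hlim : Tendsto (fun i => (u3 (-(t i)))ᵀ * P * u3 (-(t i))) atTop (𝓝 P) := by
    have h1 : Continuous fun B : Matrix (Fin 3) (Fin 3) ℝ => Bᵀ * P * B :=
      (continuous_id.matrix_transpose.matrix_mul continuous_const).matrix_mul continuous_id
    have h2 := (h1.tendsto 1).comp hinv
    simp only [Matrix.transpose_one, Matrix.one_mul, Matrix.mul_one] at h2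
    exact h2.congr fun i => (hF i).symm
  obtain ⟨θ, α, hform⟩ := fixed_of_lim P hPs (fun i => -(t i))
    (tendsto_neg_atTop_atBot.comp ht) hlim
  have hα : α = 0 := by
    by_contra hα0
    have h1 := hPδ 0
    rw [hform, form3_eq, Matrix.mul_add, Matrix.add_mul, Matrix.mul_smul, Matrix.smul_mul, hδB,
      add_right_inj, Matrix.mul_smul, Matrix.smul_mul] at h1
    have h2 := congrFun (congrFun h1 1) 1
    simp [Matrix.mul_apply, Fin.sum_univ_three, hα0] at h2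
    apply hne 0
    have h3 : δ 0 0 1 = h 0 0 1 := by
      show (u3 (-(t 0)) * h 0) 0 1 = h 0 0 1
      rw [Matrix.mul_apply, Fin.sum_univ_three]
      simp [u3]
    rw [← h3]
    exact h2
  refine ⟨θ, ?_⟩
  rw [hMP, hform, hα, form3_eq]
  simp [hM0, Matrix.mul_smul, Matrix.smul_mul]

end QL.H25
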