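import Pool.Agent.Helper27_QL.StmtApp12

/-! Sequential form of the return property. -/

set_option autoImplicit false
set_option linter.unusedVariables false
open Matrix Polynomial MeasureTheory Set Filter Topology
namespace QL.H25

/-- diagonal choice -/
theorem diag_choice {β : Type} [Nonempty β] (Q : ℕ → ℕ → β → Prop)
    (h : ∀ k, ∀ᶠ n in atTop, ∃ y, Q k n y) :
    ∃ (k : ℕ → ℕ) (y : ℕ → β), Tendsto k atTop atTop ∧ ∀ᶠ n in atTop, Q (k n) n (y n) := by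
  classical
  have h' : ∀ k, ∃ N, ∀ n ≥ N, ∃ y, Q k n y := fun k => Filter.eventually_atTop.1 (h k)
  choose N hN using h'
  let k : ℕ → ℕ := fun n => Nat.findGreatest (fun k => N k ≤ n) n
  have hk0 : ∀ n ≥ N 0, N (k n) ≤ n := fun n hn =>
    Nat.findGreatest_spec (P := fun k => N k ≤ n) (Nat.zero_le n) hn
  have hy : ∀ n, ∃ y, N 0 ≤ n → Q (k n) n y := by
    intro n
    by_cases hn : N 0 ≤ n
    · obtain ⟨y, hy⟩ := hN (k n) n (hk0 n hn)
      exact ⟨y, fun _ => hy⟩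
    · exact ⟨Classical.arbitrary β, fun h => absurd h hn⟩
  choose y hy using hy
  refine ⟨k, y, ?_, ?_⟩
  · refine Filter.tendsto_atTop.2 fun k0 => ?_
    filter_upwards [eventually_ge_atTop (N k0), eventually_ge_atTop k0] with n h1 h2
    exact Nat.le_findGreatest h2 h1
  · filter_upwards [eventually_ge_atTop (N 0)] with n hn
    exact hy n hn

variable {ι : Type} [Fintype ι] [DecidableEq ι] {d : ℕ}

theorem one_mem_Gam : (1 : Matrix ι ι ℝ) ∈ Gam ι := by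
  refine ⟨Matrix.det_one, fun i j => ?_⟩
  by_cases h : i = j
  · exact ⟨1, by subst h; simp⟩
  · exact ⟨0, by simp [h]⟩

/-- sequential form of `Ret` -/
theorem ret_seq {U : UAct ι d} {Y : Set (Matrix ι ι ℝ)} {x : Matrix ι ι ℝ} (hret : Ret U Y x)
    {x' : Matrix ι ι ℝ} (hx' : x' ∈ Y) {ω : Fin d → ℝ} (hω : ω ≠ 0) {T : ℕ → ℝ}
    (hT : Tendsto T atTop atTop) :
    ∃ (w : ℕ → Fin d → ℝ) (γ : ℕ → Matrix ι ι ℝ), (∀ n, γ n ∈ Gam ι) ∧
      Tendsto (fun n => (T n)⁻¹ • w n) atTop (𝓝 ω) ∧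
      Tendsto (fun n => U.u (w n) * x * γ n) atTop (𝓝 x') := by
  obtain ⟨k, y, hk, hy⟩ := diag_choice (β := (Fin d → ℝ) × Matrix ι ι ℝ)
    (fun k n y => ‖y.1 - T n • ω‖ ≤ (1 / ((k : ℝ) + 1)) * T n ∧ y.2 ∈ Gam ι ∧
      ∀ i j, |(U.u y.1 * x * y.2 - x') i j| < 1 / ((k : ℝ) + 1)) (fun k => by
        obtain ⟨T0, hT0⟩ := hret x' hx' ω hω (1 / ((k : ℝ) + 1)) (by positivity)
        filter_upwards [hT.eventually_ge_atTop T0] with n hn
        obtain ⟨w, h1, γ, h2, h3⟩ := hT0 (T n) hn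
        exact ⟨(w, γ), h1, h2, h3⟩)
  have hk' : Tendsto (fun n => 1 / ((k n : ℝ) + 1)) atTop (𝓝 0) :=
    (tendsto_one_div_add_atTop_nhds_zero_nat (𝕜 := ℝ)).comp hk
  classical
  refine ⟨fun n => (y n).1, fun n => if (y n).2 ∈ Gam ι then (y n).2 else 1, ?_, ?_, ?_⟩
  · intro n
    by_cases h : (y n).2 ∈ Gam ι
    · simp [h]
    · simp only [h, if_false]; exact one_mem_Gam
  · rw [tendsto_iff_norm_sub_tendsto_zero]
    refine squeeze_zero' (Eventually.of_forall fun n => norm_nonneg _) ?_ hk'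
    filter_upwards [hy, hT.eventually_gt_atTop 0] with n hn hTn
    have e : (T n)⁻¹ • (y n).1 - ω = (T n)⁻¹ • ((y n).1 - T n • ω) := by
      rw [smul_sub, smul_smul, inv_mul_cancel₀ hTn.ne', one_smul]
    rw [e, norm_smul, norm_inv, Real.norm_eq_abs, abs_of_pos hTn, inv_mul_le_iff₀ hTn, mul_comm]
    exact hn.1
  · have : Tendsto (fun n => U.u (y n).1 * x * (y n).2) atTop (𝓝 x') := by
      refine tendsto_pi_nhds.2 fun i => tendsto_pi_nhds.2 fun j => ?_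
      rw [tendsto_iff_norm_sub_tendsto_zero]
      refine squeeze_zero' (Eventually.of_forall fun n => norm_nonneg _) ?_ hk'
      filter_upwards [hy] with n hn
      have := hn.2.2 i j
      rw [Matrix.sub_apply] at this
      exact this.le
    refine this.congr' ?_
    filter_upwards [hy] with n hn
    simp [hn.2.1]

/-- the orbit of `x` is dense in `Y` -/
theorem ret_dense {U : UAct ι d} {Y : Set (Matrix ι ι ℝ)} {x : Matrix ι ι ℝ} (hret : Ret U Y x)
    {x' : Matrix ι ι ℝ} (hx' : x' ∈ Y) (ω : Fin d → ℝ) (hω : ω ≠ 0) :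
    ∃ (w : ℕ → Fin d → ℝ) (γ : ℕ → Matrix ι ι ℝ), (∀ n, γ n ∈ Gam ι) ∧
      Tendsto (fun n => U.u (w n) * x * γ n) atTop (𝓝 x') := by
  obtain ⟨w, γ, h1, _, h2⟩ := ret_seq hret hx' hω tendsto_natCast_atTop_atTop
  exact ⟨w, γ, h1, h2⟩

end QL.H25
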