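import Pool.Agent.Helper25_QL.Beta4
import Pool.Agent.Helper25_QL.Seq
import Pool.Agent.Helper60_QL.Basic

set_option autoImplicit false
set_option linter.unusedVariables false
open Matrix Polynomial MeasureTheory Set Filter Topology
namespace QL.H25

theorem act_p3_B (g : Matrix (Fin 3) (Fin 3) ℝ) (h : gᵀ * B3 * g = B3) : act p3 g = p3 := by
  rw [act_p3, h]; rfl

theorem curve3 (hmin : minsetStatement) (hTL : TL3_factsStatement) (ha : alpha3Statement)
    (h1 : beta1_3Statement) (h2 : beta2_3Statement) (h3 : beta3_3Statement) :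
    curve3Statement := by
  intro S hS x0 hx0 hD
  obtain ⟨U, hU⟩ := U3_exists
  have hu3 : ∀ s : ℝ, u3 (-s) * u3 s = 1 := fun s => by rw [u3_add]; simp [u3_zero]
  let X : Set (Matrix (Fin 3) (Fin 3) ℝ) := {x | x.det = 1 ∧ (x, p3) ∈ DD S}
  have hX : Inv U X := by
    refine ⟨?_, fun x hx => hx.1, ?_, ?_⟩
    · have c1 : Continuous fun x : Matrix (Fin 3) (Fin 3) ℝ => x.det := continuous_id.matrix_det
      have c2 : Continuous fun x : Matrix (Fin 3) (Fin 3) ℝ => (x, p3) := by fun_prop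
      exact (isClosed_eq c1 continuous_const).inter ((H60.DD_closed hS).preimage c2)
    · rintro w x ⟨hx1, hx2⟩
      rw [hU]
      refine ⟨by rw [Matrix.det_mul, u3_det, hx1, one_mul], ?_⟩
      have h := H60.DD_left hx2 (hu3 (w 0))
      rw [act_p3_B _ (u3_B3 _)] at h
      exact h
    · rintro γ hγ x ⟨hx1, hx2⟩
      exact ⟨by rw [Matrix.det_mul, hγ.1, hx1, one_mul], H60.DD_gam hx2 hγ⟩
  obtain ⟨Y, hYX, hY, ⟨x, hxY⟩, hret⟩ := hmin U TL3 hTL.1
    (fun T hT v hv w => by rw [hU]; exact hTL.2.1 (w 0) T hT v hv) X hX ⟨x0, ⟨hx0.1, hD⟩, hx0⟩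
  have hr := hret x hxY
  have hx1 : x.det = 1 := hxY.2.1
  have hxu : IsUnit x.det := by rw [hx1]; exact isUnit_one
  have hxi : x * x⁻¹ = 1 := Matrix.mul_nonsing_inv _ hxu
  have hix : x⁻¹ * x = 1 := Matrix.nonsing_inv_mul _ hxu
  obtain ⟨hTa, hTb, hTc⟩ := (hTL.2.2 x).1 hxY.2
  -- returns
  obtain ⟨w, γ, hγ, hw, hlim⟩ := ret_seq hr hxY.1 (ω := fun _ => (1 : ℝ))
    (fun h => by simpa using congrFun h 0) tendsto_natCast_atTop_atTop
  set t : ℕ → ℝ := fun n => w n 0 with ht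
  have htT : Tendsto t atTop atTop := by
    have e1 : Tendsto (fun n : ℕ => ((n : ℝ)⁻¹ • w n) 0) atTop (𝓝 1) := by
      have := (tendsto_pi_nhds.1 hw) 0
      simpa using this
    have e2 : Tendsto (fun n : ℕ => ((n : ℝ)⁻¹ • w n) 0 * (n : ℝ)) atTop atTop :=
      e1.pos_mul_atTop one_pos tendsto_natCast_atTop_atTop
    refine e2.congr' ?_
    filter_upwards [eventually_gt_atTop 0] with n hn
    have : (n : ℝ) ≠ 0 := by exact_mod_cast hn.ne'
    simp only [Pi.smul_apply, smul_eq_mul, ht]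
    field_simp
  set g : ℕ → Matrix (Fin 3) (Fin 3) ℝ := fun n => u3 (t n) * x * γ n * x⁻¹ with hg
  have hUt : ∀ n, U.u (w n) = u3 (t n) := fun n => hU _
  have hgl : Tendsto g atTop (𝓝 1) := by
    have e1 : Tendsto (fun n => U.u (w n) * x * γ n * x⁻¹) atTop (𝓝 (x * x⁻¹)) :=
      hlim.mul tendsto_const_nhds
    rw [hxi] at e1
    exact e1.congr fun n => by rw [hUt]
  have hgdet : ∀ n, (g n).det = 1 := fun n => by
    have : (x⁻¹).det = 1 := by
      have h := congrArg Matrix.det hxi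
      rwa [Matrix.det_mul, hx1, one_mul, Matrix.det_one] at h
    simp [hg, Matrix.det_mul, u3_det, hx1, (hγ n).1, this]
  have hgx : ∀ n, g n * x = u3 (t n) * x * γ n := fun n => by
    simp only [hg]; rw [Matrix.mul_assoc _ x⁻¹ x, hix, Matrix.mul_one]
  have hgxY : ∀ n, g n * x ∈ Y := fun n => by
    rw [hgx, ← hUt]
    exact hY.right _ (hγ n) _ (hY.left _ _ hxY.1)
  have hDg : ∀ n, (x, act p3 (g n)) ∈ DD S := fun n => by
    have e1 : (g n * x, p3) ∈ DD S := (hYX (hgxY n)).2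
    have hgu : IsUnit (g n).det := by rw [hgdet]; exact isUnit_one
    have e2 := H60.DD_left (g := (g n)⁻¹) (h := g n) e1 (Matrix.mul_nonsing_inv _ hgu)
    rw [← Matrix.mul_assoc, Matrix.nonsing_inv_mul _ hgu, Matrix.one_mul] at e2
    exact e2
  by_cases hA : ∃ᶠ n in atTop, ∃ s, act (act p3 (g n)) (u3 s) ≠ act p3 (g n)
  · obtain ⟨φ, hφ, hφ'⟩ := extraction_of_frequently_atTop hA
    obtain ⟨α, hα⟩ := ha S hS U hU Y x hr (fun n => g (φ n)) (hgl.comp hφ.tendsto_atTop)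
      (fun n => hgdet _) (fun n => hDg _) hφ'
    exact ⟨U, Y, x, α, hU, hY, hxY, hα⟩
  rw [Filter.not_frequently] at hA
  have hA' : ∀ᶠ n in atTop, ∀ s, act (act p3 (g n)) (u3 s) = act p3 (g n) :=
    hA.mono fun n hn s => by
      by_contra hc
      exact hn ⟨s, hc⟩
  obtain ⟨φ, hφ, hφ'⟩ := extraction_of_eventually_atTop hA'
  obtain ⟨h, α, hh, hα, hst⟩ := struct3 (fun n => g (φ n)) (hgl.comp hφ.tendsto_atTop)
    (fun n => hgdet _) hφ'
  have heq : ∀ i, u3 (t (φ i)) * x * γ (φ i) = h i * v3 (α i) * x := fun i => by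
    rw [← hgx, (hst i).1]
  have hb1 := h1 x hx1 hTb (fun i => t (φ i)) (htT.comp hφ.tendsto_atTop) (fun i => γ (φ i))
    (fun i => hγ _) h α hh hα (fun i => (hst i).2.1) (fun i => (hst i).2.2) heq
  obtain ⟨ψ, hψ, hψ'⟩ := extraction_of_eventually_atTop hb1
  have hAY := h2 U hU Y hY x hxY.1 hr (fun i => h (ψ i)) (fun i => α (ψ i))
    (hh.comp hψ.tendsto_atTop) (hα.comp hψ.tendsto_atTop) (fun i => (hst _).2.1)
    (fun i => (hst _).2.2) (fun i => by
      show h (ψ i) * v3 (α (ψ i)) * x ∈ Y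
      rw [← (hst _).1]; exact hgxY _) hψ'
  by_cases hB : ∃ᶠ i in atTop, α (ψ i) ≠ 0
  · obtain ⟨χ, hχ, hχ'⟩ := extraction_of_frequently_atTop hB
    obtain ⟨β, hβ⟩ := h3 S hS U hU Y hY x hxY.1 hr hAY (fun i => α (ψ (χ i)))
      ((hα.comp hψ.tendsto_atTop).comp hχ.tendsto_atTop) hχ' (fun i => by
        have e1 := hDg (φ (ψ (χ i)))
        rw [(hst _).1, ← act_act', act_p3_B _ (hst _).2.1, act_p3, v3_B3] at e1
        exact e1)
    exact ⟨U, Y, x, β, hU, hY, hxY, hβ⟩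
  rw [Filter.not_frequently] at hB
  obtain ⟨χ, hχ, hχ'⟩ := extraction_of_eventually_atTop hB
  exfalso
  refine beta4_3 x hx1 hTc (fun i => t (φ (ψ (χ i))))
    (((htT.comp hφ.tendsto_atTop).comp hψ.tendsto_atTop).comp hχ.tendsto_atTop)
    (fun i => γ (φ (ψ (χ i)))) (fun i => hγ _) (fun i => h (ψ (χ i)))
    ((hh.comp hψ.tendsto_atTop).comp hχ.tendsto_atTop) (fun i => (hst _).2.1)
    (fun i => (hst _).2.2) (fun i => hψ' _) (fun i => ?_)
  have e1 := heq (ψ (χ i))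
  have e2 : α (ψ (χ i)) = 0 := by
    by_contra hc
    exact hχ' i hc
  rw [e2, v3_zero, Matrix.mul_one] at e1
  exact e1

end QL.H25
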