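import Pool.Agent.Helper25_QL.Alg3

set_option autoImplicit false
set_option linter.unusedVariables false
set_option linter.unusedSimpArgs false
open Matrix Polynomial MeasureTheory Set Filter Topology
namespace QL.H25

theorem B3_symm : B3ᵀ = B3 := by
  ext i j
  fin_cases i <;> fin_cases j <;> simp [B3]

theorem B3_det : B3.det = 1 := by
  rw [← form3_B3, form3_det]; norm_num

theorem cube_one {θ : ℝ} (h : θ^3 = 1) : θ = 1 := by
  have h1 : (θ - 1) * (θ^2 + θ + 1) = 0 := by ring_nf; rw [h]; ring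
  rcases mul_eq_zero.1 h1 with h2 | h2
  · linarith
  · nlinarith [sq_nonneg (θ + 1/2)]

theorem continuous_v3 : Continuous v3 := by
  refine continuous_matrix fun i j => ?_
  fin_cases i <;> fin_cases j <;> simp [v3] <;> fun_prop

theorem continuous_u3 : Continuous u3 := by
  refine continuous_matrix fun i j => ?_
  fin_cases i <;> fin_cases j <;> simp [u3] <;> fun_prop

theorem continuous_act {ι : Type} [Fintype ι] :
    Continuous fun y : W ι × Matrix ι ι ℝ => act y.1 y.2 := by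
  unfold act
  refine Continuous.prodMk ?_ ?_
  · exact ((continuous_snd.matrix_transpose).matrix_mul (continuous_fst.comp continuous_fst)
      ).matrix_mul continuous_snd
  · refine continuous_pi fun j => ?_
    simp only [Matrix.vecMul, dotProduct]
    refine continuous_finsetSum _ fun i _ => ?_
    refine Continuous.mul ?_ ?_
    · exact (continuous_apply i).comp (continuous_snd.comp continuous_fst)
    · exact (continuous_apply j).comp ((continuous_apply i).comp continuous_snd)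

theorem act_one' {ι : Type} [Fintype ι] [DecidableEq ι] (q : W ι) : act q 1 = q := by
  simp [act]

theorem act_act' {ι : Type} [Fintype ι] (q : W ι) (g h : Matrix ι ι ℝ) :
    act (act q g) h = act q (g * h) := by
  simp [act, Matrix.transpose_mul, Matrix.mul_assoc, Matrix.vecMul_vecMul]

theorem act_p3 (g : Matrix (Fin 3) (Fin 3) ℝ) : act p3 g = (gᵀ * B3 * g, 0) := by
  simp [act, p3]

/-- a `U`-fixed symmetric form of determinant one -/
theorem fixed_det_one (M : Matrix (Fin 3) (Fin 3) ℝ) (hM : Mᵀ = M) (hd : M.det = 1)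
    (h : ∀ t, (u3 t)ᵀ * M * u3 t = M) : M = form3 1 (M 0 0) := by
  obtain ⟨θ, α, rfl⟩ := fixed_form3 M hM h
  rw [form3_det] at hd
  rw [cube_one hd]
  simp [form3]

theorem struct3 : struct3Statement := by
  intro g hg hdet hf
  have hsym : ∀ i, ((g i)ᵀ * B3 * g i)ᵀ = (g i)ᵀ * B3 * g i := fun i => by
    simp [Matrix.transpose_mul, B3_symm, Matrix.mul_assoc]
  have hd : ∀ i, ((g i)ᵀ * B3 * g i).det = 1 := fun i => by
    simp [hdet, B3_det]
  have hfix : ∀ i t, (u3 t)ᵀ * ((g i)ᵀ * B3 * g i) * u3 t = (g i)ᵀ * B3 * g i := fun i t => by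
    have := congrArg Prod.fst (hf i t)
    simpa [act, p3] using this
  have key : ∀ i, (g i)ᵀ * B3 * g i = form3 1 (((g i)ᵀ * B3 * g i) 0 0) := fun i =>
    fixed_det_one _ (hsym i) (hd i) (hfix i)
  set a : ℕ → ℝ := fun i => ((g i)ᵀ * B3 * g i) 0 0 with ha
  have hlim : Tendsto a atTop (𝓝 0) := by
    have h1 : Continuous fun g : Matrix (Fin 3) (Fin 3) ℝ => (gᵀ * B3 * g) 0 0 := by
      have : Continuous fun g : Matrix (Fin 3) (Fin 3) ℝ => gᵀ * B3 * g :=
        (continuous_id.matrix_transpose.matrix_mul continuous_const).matrix_mul continuous_id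
      exact (continuous_apply 0).comp ((continuous_apply 0).comp this)
    have h2 := (h1.tendsto 1).comp hg
    have e : (((1 : Matrix (Fin 3) (Fin 3) ℝ)ᵀ * B3 * 1 : Matrix (Fin 3) (Fin 3) ℝ)) 0 0 = 0 := by
      simp [B3]
    rw [e] at h2
    exact h2
  refine ⟨fun i => g i * v3 (-(a i / 2)), fun i => a i / 2, ?_, ?_, fun i => ⟨?_, ?_, ?_⟩⟩
  · have h1 : Tendsto (fun i => v3 (-(a i / 2))) atTop (𝓝 (v3 (-(0/2)))) :=
      (continuous_v3.tendsto _).comp ((hlim.div_const 2).neg)
    have h2 := Filter.Tendsto.mul hg h1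
    simpa [v3_zero] using h2
  · simpa using hlim.div_const 2
  · rw [Matrix.mul_assoc, v3_add]
    simp [v3_zero]
  · have : (g i * v3 (-(a i / 2)))ᵀ * B3 * (g i * v3 (-(a i / 2))) =
        (v3 (-(a i / 2)))ᵀ * ((g i)ᵀ * B3 * g i) * v3 (-(a i / 2)) := by
      simp [Matrix.transpose_mul, Matrix.mul_assoc]
    rw [this, key i, v3_form3]
    have : a i + 2 * 1 * -(a i / 2) = 0 := by ring
    show form3 1 (a i + 2 * 1 * -(a i / 2)) = B3
    rw [this, form3_B3]
  · rw [Matrix.det_mul, hdet, v3_det, one_mul]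

theorem TL3_facts (h1 : sing_tube1Statement) (h2 : sing_tube2Statement)
    (h3 : uniq_tube1Statement) (h4 : uniq_tube2_lineStatement) (h5 : fix_tube1Statement)
    (h6 : fix_tube2Statement) : TL3_factsStatement := by
  refine ⟨h4 _ _ (h3 _ _ trivial), ?_, ?_⟩
  · intro t T hT v hv
    simp only [TL3, List.mem_cons, List.not_mem_nil, or_false] at hT
    rcases hT with rfl | rfl
    · refine h6 F3 (u3 t) (u3_det t) ?_ v hv
      intro M hM
      obtain ⟨c, rfl⟩ := Submodule.mem_span_singleton.1 hM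
      rw [Matrix.mul_smul, Matrix.smul_mul, u3_B3]
    · refine h5 c3 (u3 t) (u3_det t) ?_ v hv
      ext j
      fin_cases j <;> simp [c3, u3, Matrix.vecMul, dotProduct, Fin.sum_univ_three]
  · intro g
    constructor
    · rintro ⟨hd, hs⟩
      refine ⟨hd, ?_, ?_⟩
      · intro w hw hc
        exact hs (tube1 c3) (by simp [TL3]) ((h1 c3 g hd).2 ⟨w, hw, hc⟩)
      · rintro R hR ⟨c, hc⟩
        refine hs (tube2 F3) (by simp [TL3]) ((h2 F3 g hd).2 ⟨R, hR, c • B3, ?_, ?_⟩)
        · exact Submodule.smul_mem _ _ (Submodule.mem_span_singleton_self _)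
        · rw [hc, Matrix.mul_smul, Matrix.smul_mul]
    · rintro ⟨hd, hw, hR⟩
      refine ⟨hd, ?_⟩
      intro T hT
      simp only [TL3, List.mem_cons, List.not_mem_nil, or_false] at hT
      rcases hT with rfl | rfl
      · intro hs
        obtain ⟨R, hR0, M, hM, he⟩ := (h2 F3 g hd).1 hs
        obtain ⟨c, rfl⟩ := Submodule.mem_span_singleton.1 hM
        exact hR R hR0 ⟨c, by rw [he, Matrix.mul_smul, Matrix.smul_mul]⟩
      · intro hs
        obtain ⟨w, hw0, c, hc⟩ := (h1 c3 g hd).1 hs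
        exact hw w hw0 ⟨c, hc⟩

theorem conj3 (h : TL3_factsStatement) : conj3Statement := by
  refine ⟨u3T_B3, fun g hg hirr => ?_⟩
  have hgu : IsUnit g.det := by rw [hg]; exact isUnit_one
  have hsub : ∀ w : Fin 3 → ℤ, w ≠ 0 →
      {r : ℝ | ∃ c : ℝ, iv w = c • (c3 ᵥ* ((u3 r)ᵀ * g))}.Subsingleton := by
    rintro w hw r ⟨c, hc⟩ r' ⟨c', hc'⟩
    have e : ∀ r : ℝ, c3 ᵥ* (u3 r)ᵀ = ![1, r, r^2/2] := fun r => by
      ext j
      fin_cases j <;> simp [c3, u3, Matrix.vecMul, dotProduct, Fin.sum_univ_three]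
    have h1 : iv w ᵥ* g⁻¹ = c • ![1, r, r^2/2] := by
      rw [hc, Matrix.smul_vecMul, ← Matrix.vecMul_vecMul, Matrix.vecMul_vecMul,
        Matrix.mul_nonsing_inv _ hgu, Matrix.vecMul_one, e]
    have h2 : iv w ᵥ* g⁻¹ = c' • ![1, r', r'^2/2] := by
      rw [hc', Matrix.smul_vecMul, ← Matrix.vecMul_vecMul, Matrix.vecMul_vecMul,
        Matrix.mul_nonsing_inv _ hgu, Matrix.vecMul_one, e]
    rw [h1] at h2
    have h3 := congrFun h2 0
    have h4 := congrFun h2 1
    simp at h3
    subst h3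
    simp at h4
    rcases h4 with h4 | h4
    · exact h4
    · exfalso
      apply hw
      rw [h4, zero_smul] at hc
      ext i
      have := congrFun hc i
      simpa [iv] using this
  have hcount : (⋃ w : {w : Fin 3 → ℤ // w ≠ 0},
      {r : ℝ | ∃ c : ℝ, iv w.1 = c • (c3 ᵥ* ((u3 r)ᵀ * g))}).Countable :=
    Set.countable_iUnion fun w => (hsub w.1 w.2).countable
  obtain ⟨r, hr⟩ := (hcount.dense_compl ℝ).nonempty
  refine ⟨r, (h.2.2 _).2 ⟨?_, ?_, ?_⟩⟩
  · rw [Matrix.det_mul, Matrix.det_transpose, u3_det, hg, one_mul]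
  · intro w hw hc
    exact hr (Set.mem_iUnion.2 ⟨⟨w, hw⟩, hc⟩)
  · intro R hR
    have : ((u3 r)ᵀ * g)ᵀ * B3 * ((u3 r)ᵀ * g) = gᵀ * B3 * g := by
      calc ((u3 r)ᵀ * g)ᵀ * B3 * ((u3 r)ᵀ * g) = gᵀ * (u3 r * B3 * (u3 r)ᵀ) * g := by
            simp [Matrix.transpose_mul, Matrix.mul_assoc]
        _ = _ := by rw [u3T_B3]
    rw [this]
    exact hirr R hR

end QL.H25
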